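import Mathlib

/-!
# MP_ee20a5_al : ratio gaps in rigid rational tuples

The rigid tuple (1, 3, 4, 6, 8, 12) has a ratio gap 3 > 2 right after the entry 1.
-/

namespace Pool.Agent.Results.MP_ee20a5_al.RatioGapFails

/-- A rational tuple is rigid if it is the only rational tuple satisfying every equation
`v i = 1` and `v i + v j = v k` that it satisfies. -/
def Rigid {n : ℕ} (x : Fin n → ℚ) : Prop :=
  ∀ y : Fin n → ℚ, (∀ i, x i = 1 → y i = 1) →
    (∀ i j k, x i + x j = x k → y i + y j = y k) → y = x

/-- The ratio bound fails: it is not true that in every rigid tuple of length at least two,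
ordered by absolute value, an entry of absolute value at least one is followed by an entry of
at most twice its absolute value. -/
theorem result : ¬ ∀ n : ℕ, 2 ≤ n → ∀ x : Fin n → ℚ, Rigid x →
    (∀ i j : Fin n, i ≤ j → |x i| ≤ |x j|) →
    ∀ i j : Fin n, (i : ℕ) + 1 = (j : ℕ) → 1 ≤ |x i| → |x j| ≤ 2 * |x i| := by
  intro h
  have h1 := h 6 (by norm_num) ![1, 3, 4, 6, 8, 12] ?_ ?_ 0 1 (by norm_num) (by norm_num)
  · norm_num at h1
  · intro y hy1 hy2
    have e0 : y 0 = 1 := hy1 0 (by norm_num)
    have e1 : y 0 + y 1 = y 2 := hy2 0 1 2 (by simp; norm_num)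
    have e2 : y 1 + y 1 = y 3 := hy2 1 1 3 (by simp; norm_num)
    have e3 : y 2 + y 2 = y 4 := hy2 2 2 4 (by simp; norm_num)
    have e4 : y 3 + y 3 = y 5 := hy2 3 3 5 (by simp; norm_num)
    have e5 : y 2 + y 4 = y 5 := hy2 2 4 5 (by simp; norm_num)
    funext i
    fin_cases i <;> simp <;> linarith
  · intro i j hij
    fin_cases i <;> fin_cases j <;>
      first | (simp at hij; done) | (simp; done) | (norm_num [abs_of_pos]; done)

end Pool.Agent.Results.MP_ee20a5_al.RatioGapFails
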